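import Mathlib

/-!
# The congruences modulo `p ^ 2` for the cubed sums of `T_k(18, 49)` fail at the prime `7`
-/

set_option autoImplicit false

namespace Pool.Agent.Results.MP_f96d9d_nt.QOneFailsAtSeven

open Finset

/-- `T_n(b, c)`, the coefficient of `x ^ n` in `(x ^ 2 + b x + c) ^ n`. -/
def T (b c : ℤ) (n : ℕ) : ℤ :=
  ∑ j ∈ range (n / 2 + 1), (n.choose (2 * j) : ℤ) * ((2 * j).choose j : ℤ) * c ^ j * b ^ (n - 2 * j)

/-- `x ≡ y` modulo `p ^ 2`: the difference lies in `p ^ 2 ℤ_(p)`. -/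
def Cong (p : ℕ) (x y : ℚ) : Prop := ∃ r : ℚ, ¬ p ∣ r.den ∧ x - y = (p : ℚ) ^ 2 * r

/-- `A_1(p)`. -/
def A₁ (p : ℕ) : ℚ := ∑ k ∈ range p, (T 18 49 k : ℚ) ^ 3 / 512 ^ k

/-- `A_2(p)`. -/
def A₂ (p : ℕ) : ℚ := ∑ k ∈ range p, (T 18 49 k : ℚ) ^ 3 / 4096 ^ k

/-- The assertion of Q1 for the prime `p`. -/
def AssertionAt (p : ℕ) [Fact p.Prime] : Prop :=
  Cong p ((legendreSym p 2 : ℚ) * A₁ p) (A₂ p) ∧
  (p % 4 = 1 → ∀ x y : ℤ, (p : ℤ) = x ^ 2 + y ^ 2 → Odd x → Even y →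
    Cong p (A₂ p) (4 * (x : ℚ) ^ 2 - 2 * p)) ∧
  (p % 4 = 3 → Cong p (A₂ p) 0)

/-- Q1 is false: the prime `p = 7` is `3` modulo `4`, and `A_2(7)` is not `0` modulo `7 ^ 2`. -/

theorem result : ¬ ∀ (p : ℕ) [Fact p.Prime], 3 < p → AssertionAt p := by
  intro h
  have F : Fact (Nat.Prime 7) := ⟨by norm_num⟩
  obtain ⟨-, -, h3⟩ := h 7 (by norm_num)
  obtain ⟨r, hr, e⟩ := h3 (by norm_num)
  have t0 : T 18 49 0 = 1 := by decide +kernel
  have t1 : T 18 49 1 = 18 := by decide +kernel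
  have t2 : T 18 49 2 = 422 := by decide +kernel
  have t3 : T 18 49 3 = 11124 := by decide +kernel
  have t4 : T 18 49 4 = 309894 := by decide +kernel
  have t5 : T 18 49 5 = 8901468 := by decide +kernel
  have t6 : T 18 49 6 = 260693084 := by decide +kernel
  unfold A₂ at e
  simp only [sum_range_succ, sum_range_zero, t0, t1, t2, t3, t4, t5, t6] at e
  have h2 : r = 47393761953030451095425 / 516508834063867445248 := by
    norm_num at e
    linarith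
  apply hr
  rw [h2]
  decide +kernel

end Pool.Agent.Results.MP_f96d9d_nt.QOneFailsAtSeven
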