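import Mathlib

/-!
# The congruences modulo `p ^ 2` for the cubed sums of `T_k(10, 49)` fail at the prime `7`
-/

set_option autoImplicit false

namespace Pool.Agent.Results.MP_f96d9d_nt.QTwoFailsAtSeven

open Finset

/-- `T_n(b, c)`, the coefficient of `x ^ n` in `(x ^ 2 + b x + c) ^ n`. -/
def T (b c : ℤ) (n : ℕ) : ℤ :=
  ∑ j ∈ range (n / 2 + 1), (n.choose (2 * j) : ℤ) * ((2 * j).choose j : ℤ) * c ^ j * b ^ (n - 2 * j)

/-- `x ≡ y` modulo `p ^ 2`: the difference lies in `p ^ 2 ℤ_(p)`. -/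
def Cong (p : ℕ) (x y : ℚ) : Prop := ∃ r : ℚ, ¬ p ∣ r.den ∧ x - y = (p : ℚ) ^ 2 * r

/-- `B_1(p)`. -/
def B₁ (p : ℕ) : ℚ := ∑ k ∈ range p, (T 10 49 k : ℚ) ^ 3 / (-512) ^ k

/-- `B_2(p)`. -/
def B₂ (p : ℕ) : ℚ := ∑ k ∈ range p, (T 10 49 k : ℚ) ^ 3 / 1728 ^ k

/-- The assertion of Q2 for the prime `p`. -/
def AssertionAt (p : ℕ) [Fact p.Prime] : Prop :=
  Cong p ((legendreSym p (-1) : ℚ) * B₁ p) ((legendreSym p 6 : ℚ) * B₂ p) ∧
  (p % 8 = 1 ∨ p % 8 = 3 → ∀ x y : ℤ, (p : ℤ) = x ^ 2 + 2 * y ^ 2 →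
    Cong p ((legendreSym p 6 : ℚ) * B₂ p) (4 * (x : ℚ) ^ 2 - 2 * p)) ∧
  (p % 8 = 5 ∨ p % 8 = 7 → Cong p ((legendreSym p 6 : ℚ) * B₂ p) 0)

/-- Q2 is false: the prime `p = 7` is `7` modulo `8`, and `B_2(7)` is not `0` modulo `7 ^ 2`. -/

theorem result : ¬ ∀ (p : ℕ) [Fact p.Prime], 3 < p → AssertionAt p := by
  intro h
  have F : Fact (Nat.Prime 7) := ⟨by norm_num⟩
  obtain ⟨-, -, h3⟩ := h 7 (by norm_num)
  obtain ⟨r, hr, e⟩ := h3 (by norm_num)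
  have t0 : T 10 49 0 = 1 := by decide +kernel
  have t1 : T 10 49 1 = 10 := by decide +kernel
  have t2 : T 10 49 2 = 198 := by decide +kernel
  have t3 : T 10 49 3 = 3940 := by decide +kernel
  have t4 : T 10 49 4 = 83206 := by decide +kernel
  have t5 : T 10 49 5 = 1800300 := by decide +kernel
  have t6 : T 10 49 6 = 39661980 := by decide +kernel
  have hl : legendreSym 7 6 = -1 := by norm_num
  rw [hl] at e
  unfold B₂ at e
  simp only [sum_range_succ, sum_range_zero, t0, t1, t2, t3, t4, t5, t6] at e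
  have h2 : r = -(6169050190070291075 / 107849151022104576) := by
    norm_num at e
    linarith
  apply hr
  rw [h2]
  decide +kernel

end Pool.Agent.Results.MP_f96d9d_nt.QTwoFailsAtSeven
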